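import Pool.Agent.Lib.TGJ.InR1
import Pool.Agent.Lib.TGJ_h11.ExD4
import Pool.Agent.Lib.TGBC_h49.RowIR

/-!
# TANK G: the local degree of a system of parameters is positive; RowIR from F1 and RowLead
-/

set_option autoImplicit false

namespace Pool.Agent.TGBC49

open Pool.Agent.TGJ
open Pool.Agent.TGBC

universe u

/-- The local degree is positive. -/
theorem rhoPos (k K : Type u) [Field k] [Field K] [Algebra k K] : RhoPos k K := by
  intro hk S res hS n hn f hf
  exact rho_pos_of_R1 (fun _ => inR1 k K) hk S res hS n hn f hf

/-- **RowIR** from F1 and RowLead alone. -/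
theorem rowIR' {k K : Type u} [Field k] [Field K] [Algebra k K] (hF1 : F1 k K)
    (hLead : RowLead k K) : RowIR k K := rowIR hF1 hLead (rhoPos k K)

end Pool.Agent.TGBC49
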